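import Pool.Agent.H98.RFC.Targets

/-!
Row PRO of the board rfc_modules: independence of the boxes.
-/

set_option autoImplicit false

noncomputable section

open MeasureTheory ProbabilityTheory

namespace Pool.Agent.H65.RFC.PRO

open Pool.Agent.H98.RFC

theorem gam_prob : IsProbabilityMeasure gam := by
  unfold gam
  infer_instance

/-- Extension by zero. -/
def extz (S : Finset Site) (g : S → ℝ) (z : Site) : ℝ := by
  classical
  exact if h : z ∈ S then g ⟨z, h⟩ else 0

theorem extz_meas (S : Finset Site) : Measurable (extz S) := by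
  classical
  rw [measurable_pi_iff]
  intro z
  by_cases h : z ∈ S
  · have h1 : (fun g : S → ℝ => extz S g z) = fun g => g ⟨z, h⟩ := by
      funext g
      unfold extz
      rw [dif_pos h]
    rw [h1]
    exact measurable_pi_apply _
  · have h1 : (fun g : S → ℝ => extz S g z) = fun g => 0 := by
      funext g
      unfold extz
      rw [dif_neg h]
    rw [h1]
    exact measurable_const

theorem extz_restr (S : Finset Site) (η : Site → ℝ) (z : Site) (hz : z ∈ S) :
    extz S (fun i : S => η i) z = η z := by
  unfold extz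
  rw [dif_pos hz]

/-- Functions of the field in disjoint finite sets are independent. -/
theorem indep2 (S T : Finset Site) (hST : Disjoint S T) (F G : (Site → ℝ) → ℝ)
    (hF : Measurable F) (hG : Measurable G)
    (hFS : ∀ η η' : Site → ℝ, (∀ z ∈ S, η z = η' z) → F η = F η')
    (hGT : ∀ η η' : Site → ℝ, (∀ z ∈ T, η z = η' z) → G η = G η') :
    IndepFun F G gam := by
  have hind : iIndepFun (fun (x : Site) (η : Site → ℝ) => η x) gam :=
    iIndepFun_infinitePi (X := fun x t => t) (fun x => measurable_id)
  have h1 := hind.indepFun_finset S T hST (fun x => measurable_pi_apply x)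
  have h2 := h1.comp (hF.comp (extz_meas S)) (hG.comp (extz_meas T))
  have h3 : (F ∘ extz S) ∘ (fun (η : Site → ℝ) (i : S) => η i) = F := by
    funext η
    exact hFS _ _ fun z hz => extz_restr S η z hz
  have h4 : (G ∘ extz T) ∘ (fun (η : Site → ℝ) (i : T) => η i) = G := by
    funext η
    exact hGT _ _ fun z hz => extz_restr T η z hz
  rwa [h3, h4] at h2

/-- The expectation of a product over disjoint sets. -/
theorem integral_prod {ι : Type} [DecidableEq ι] (W : ι → Finset Site)
    (hW : ∀ i j, i ≠ j → Disjoint (W i) (W j)) (F : ι → (Site → ℝ) → ℝ)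
    (hm : ∀ i, Measurable (F i))
    (hF : ∀ i, ∀ η η' : Site → ℝ, (∀ z ∈ W i, η z = η' z) → F i η = F i η') (s : Finset ι) :
    ∫ η, ∏ i ∈ s, F i η ∂gam = ∏ i ∈ s, ∫ η, F i η ∂gam := by
  classical
  have := gam_prob
  induction s using Finset.induction_on with
  | empty => simp
  | insert k s hk ih =>
    rw [Finset.prod_insert hk, ← ih]
    have hms : Measurable fun η : Site → ℝ => ∏ i ∈ s, F i η :=
      Finset.measurable_prod s fun i _ => hm i
    have h1 : IndepFun (F k) (fun η : Site → ℝ => ∏ i ∈ s, F i η) gam := by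
      refine indep2 (W k) (s.biUnion W) ?_ _ _ (hm k) hms (hF k) ?_
      · rw [Finset.disjoint_biUnion_right]
        intro i hi
        refine hW k i ?_
        rintro rfl
        exact hk hi
      · intro η η' h
        refine Finset.prod_congr rfl fun i hi => hF i η η' fun z hz => h z ?_
        exact Finset.mem_biUnion.2 ⟨i, hi, hz⟩
    have h2 := h1.integral_fun_mul_eq_mul_integral (hm k).aestronglyMeasurable
      hms.aestronglyMeasurable
    rw [← h2]
    refine integral_congr_ae (Filter.Eventually.of_forall fun η => ?_)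
    exact Finset.prod_insert hk

theorem pf_PRO (hLOC : T_LOC) (hTRA : T_TRA) (hTRG : T_TRG) (hMEA : T_MEA) : T_PRO := by
  classical
  intro R J hJ T ε hT r n a ha
  have hT0 : T ≠ 0 := hT.ne'
  have hinf : ∀ (h : Site → ℝ) (Λ : Finset Site) (x : Site),
      inf1 R J h T Λ x = infl R J h T Λ x := by
    intro h Λ x
    unfold infl
    rw [if_neg hT0]
  have hmem : ∀ y : Site, y ∈ bx y r := by
    intro y
    unfold bx
    simp only [Finset.mem_product, Finset.mem_Icc]
    refine ⟨⟨?_, ?_⟩, ?_, ?_⟩ <;> linarith [Int.natCast_nonneg r]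
  have hdisj : ∀ i j : Fin (n + 1), i ≠ j → Disjoint (bx (pt a i) r) (bx (pt a j) r) := by
    intro i j hij
    rw [Finset.disjoint_left]
    intro z hz1 hz2
    refine ha i j hij ?_
    unfold bx at hz1 hz2
    unfold box
    simp only [Finset.mem_product, Finset.mem_Icc] at hz1 hz2 ⊢
    simp only [Prod.fst_sub, Prod.snd_sub]
    push_cast
    refine ⟨⟨?_, ?_⟩, ?_, ?_⟩ <;>
      linarith [hz1.1.1, hz1.1.2, hz1.2.1, hz1.2.2, hz2.1.1, hz2.1.2, hz2.2.1, hz2.2.2,
        Int.natCast_nonneg R]
  simp only [hinf]
  rw [integral_prod (fun j => bx (pt a j) r) hdisj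
    (fun j η => infl R J (fun x => ε * η x) T (bx (pt a j) r) (pt a j))
    (fun j => (hMEA R J hJ T ε hT.le _ _ (hmem _)).1)
    (fun j η η' h => hLOC R J _ _ T _ _ fun z hz => by rw [h z hz]) Finset.univ]
  have hfac : ∀ j : Fin (n + 1), ∫ η, infl R J (fun x => ε * η x) T (bx (pt a j) r) (pt a j) ∂gam =
      mag R J T ε r := by
    intro j
    unfold mag
    have h0 : (0 : Site) ∈ box r := by
      unfold box
      simp only [Finset.mem_product, Finset.mem_Icc, Prod.fst_zero, Prod.snd_zero]
      refine ⟨⟨?_, ?_⟩, ?_, ?_⟩ <;> linarith [Int.natCast_nonneg r]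
    have hm := (hMEA R J hJ T ε hT.le (box r) 0 h0).1
    have hsh : Measurable (fun (η : Site → ℝ) (x : Site) => η (pt a j + x)) := by
      rw [measurable_pi_iff]
      intro x
      exact measurable_pi_apply _
    have h1 : ∫ η, infl R J (fun x => ε * η x) T (box r) 0
        ∂(gam.map (fun (η : Site → ℝ) (x : Site) => η (pt a j + x))) =
        ∫ η, infl R J (fun x => ε * η (pt a j + x)) T (box r) 0 ∂gam :=
      integral_map hsh.aemeasurable hm.aestronglyMeasurable
    rw [hTRG (pt a j)] at h1
    rw [h1]
    refine integral_congr_ae (Filter.Eventually.of_forall fun η => ?_)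
    exact hTRA R J (fun x => ε * η x) T (pt a j) r
  rw [Finset.prod_congr rfl fun j _ => hfac j, Finset.prod_const, Finset.card_univ,
    Fintype.card_fin]

end Pool.Agent.H65.RFC.PRO
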