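import Pool.Agent.H98.RFC.Targets

/-!
Row PTH of the board rfc_modules: a path from the origin to the outside of a large box visits a
long separated chain.
-/

set_option autoImplicit false

noncomputable section

namespace Pool.Agent.H65.RFC

open Pool.Agent.H98.RFC

theorem mem_box' {k : ℕ} {z : Site} :
    z ∈ box k ↔ (-(k : ℤ) ≤ z.1 ∧ z.1 ≤ k) ∧ (-(k : ℤ) ≤ z.2 ∧ z.2 ≤ k) := by
  unfold box
  simp only [Finset.mem_product, Finset.mem_Icc]

theorem mem_bx' {y z : Site} {r : ℕ} : z ∈ bx y r ↔ z - y ∈ box r := by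
  unfold bx
  rw [mem_box']
  simp only [Finset.mem_product, Finset.mem_Icc, Prod.fst_sub, Prod.snd_sub]
  constructor
  · rintro ⟨⟨h1, h2⟩, h3, h4⟩
    exact ⟨⟨by linarith, by linarith⟩, by linarith, by linarith⟩
  · rintro ⟨⟨h1, h2⟩, h3, h4⟩
    exact ⟨⟨by linarith, by linarith⟩, by linarith, by linarith⟩

theorem box_add {k l : ℕ} {z w : Site} (h1 : z ∈ box k) (h2 : w ∈ box l) : z + w ∈ box (k + l) := by
  rw [mem_box'] at h1 h2 ⊢
  simp only [Prod.fst_add, Prod.snd_add, Nat.cast_add]
  refine ⟨⟨?_, ?_⟩, ?_, ?_⟩ <;> linarith [h1.1.1, h1.1.2, h1.2.1, h1.2.2, h2.1.1, h2.1.2, h2.2.1, h2.2.2]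

theorem box_neg {k : ℕ} {z : Site} (h1 : z ∈ box k) : -z ∈ box k := by
  rw [mem_box'] at h1 ⊢
  simp only [Prod.fst_neg, Prod.snd_neg]
  refine ⟨⟨?_, ?_⟩, ?_, ?_⟩ <;> linarith [h1.1.1, h1.1.2, h1.2.1, h1.2.2]

theorem box_mono {k l : ℕ} (h : k ≤ l) {z : Site} (h1 : z ∈ box k) : z ∈ box l := by
  rw [mem_box'] at h1 ⊢
  have h' : (k : ℤ) ≤ l := by exact_mod_cast h
  refine ⟨⟨?_, ?_⟩, ?_, ?_⟩ <;> linarith [h1.1.1, h1.1.2, h1.2.1, h1.2.2]

/-- A sequence from the reflexive transitive closure. -/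
theorem seq_of {α : Type*} {r : α → α → Prop} {x y : α} (h : Relation.ReflTransGen r x y) :
    ∃ (m : ℕ) (p : ℕ → α), p 0 = x ∧ p m = y ∧ ∀ i, i < m → r (p i) (p (i + 1)) := by
  induction h with
  | refl => exact ⟨0, fun _ => x, rfl, rfl, fun i hi => absurd hi (Nat.not_lt_zero i)⟩
  | tail _ hbc ih =>
    obtain ⟨m, p, h0, hm, hp⟩ := ih
    rename_i b c _
    refine ⟨m + 1, fun i => if i ≤ m then p i else c, ?_, ?_, ?_⟩
    · simp [h0]
    · simp
    · intro i hi
      rcases Nat.lt_or_ge i m with h | h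
      · have h1 : i ≤ m := h.le
        have h2 : i + 1 ≤ m := h
        simp only [h1, h2, if_true]
        exact hp i h
      · have h1 : i = m := by omega
        subst h1
        simp only [le_refl, if_true]
        rw [if_neg (by omega), hm]
        exact hbc

/-- A path that ends outside of `Λ'` gives a connection. -/
theorem conn_of {D : Set Site} {Λ' : Finset Site} {ω : Finset (Site × Site)} {m : ℕ}
    {p : ℕ → Site} (hm : p m ∉ Λ')
    (hp : ∀ i, i < m → p i ∈ D ∧ p (i + 1) ∈ D ∧ opn ω (p i) (p (i + 1))) :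
    ∀ d s, s + d = m → conn D Λ' ω (p s) := by
  intro d
  induction d with
  | zero =>
    intro s hs
    have h : s = m := by omega
    subst h
    exact ⟨p s, hm, Relation.ReflTransGen.refl⟩
  | succ d ih =>
    intro s hs
    by_cases h : p s ∈ Λ'
    · obtain ⟨y, hy, hr⟩ := ih (s + 1) (by omega)
      obtain ⟨h1, h2, h3⟩ := hp s (by omega)
      exact ⟨y, hy, Relation.ReflTransGen.head ⟨h, h1, h2, h3⟩ hr⟩
    · exact ⟨p s, h, Relation.ReflTransGen.refl⟩

/-- One step of the chain. -/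
theorem next {R k m : ℕ} {p : ℕ → Site} (hstep : ∀ i, i < m → p (i + 1) - p i ∈ box R) (s : ℕ)
    (hs : s ≤ m) (hm : p m - p s ∉ box k) :
    ∃ s', s < s' ∧ s' ≤ m ∧ p s' - p s ∈ box (k + R) ∧
      ∀ i, s' ≤ i → i ≤ m → p i - p s ∉ box k := by
  classical
  -- the last visit
  have h0 : p s - p s ∈ box k := by
    rw [sub_self, mem_box']
    simp
  let F : Finset ℕ := (Finset.range (m + 1)).filter (fun i => p i - p s ∈ box k)
  have hF : F.Nonempty := ⟨s, by simp only [F, Finset.mem_filter, Finset.mem_range]; exact ⟨by omega, h0⟩⟩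
  obtain ⟨i0, hi0, hmax⟩ := Finset.exists_max_image F id hF
  simp only [F, Finset.mem_filter, Finset.mem_range, id] at hi0 hmax
  have hlt : i0 < m := by
    rcases Nat.lt_or_ge i0 m with h | h
    · exact h
    · have : i0 = m := by omega
      rw [this] at hi0
      exact absurd hi0.2 hm
  have hge : s ≤ i0 := hmax s ⟨by omega, h0⟩
  refine ⟨i0 + 1, by omega, by omega, ?_, ?_⟩
  · have h1 := box_add hi0.2 (hstep i0 hlt)
    have h2 : p i0 - p s + (p (i0 + 1) - p i0) = p (i0 + 1) - p s := by abel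
    rwa [h2] at h1
  · intro i h1 h2 h3
    have := hmax i ⟨by omega, h3⟩
    omega

theorem pf_PTH : T_PTH := by
  classical
  intro R r n L hL D ω hω hc
  obtain ⟨y, hy, hr⟩ := hc
  obtain ⟨m, p, hp0, hpm, hp⟩ := seq_of hr
  -- the steps are short
  have hstep : ∀ i, i < m → p (i + 1) - p i ∈ box R := by
    intro i hi
    rcases (hp i hi).2.2.2 with h | h
    · have h1 := hω h
      unfold prs at h1
      exact (Finset.mem_filter.1 h1).2.2
    · have h1 := hω h
      unfold prs at h1
      have h2 := box_neg (Finset.mem_filter.1 h1).2.2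
      simp only [neg_sub] at h2
      exact h2
  have hym : p m ∉ box L := by rw [hpm]; exact hy
  -- points in the small boxes see the end outside
  have hfar : ∀ j k s, j ≤ n → (j * (2 * r + 2 * R) + k ≤ L) → p s ∈ box (j * (2 * r + 2 * R)) →
      p m - p s ∉ box k := by
    intro j k s _ hj hs h
    have h1 := box_add hs h
    have h2 : p s + (p m - p s) = p m := by abel
    rw [h2] at h1
    exact hym (box_mono hj h1)
  have hnext : ∀ s, ∃ s', (s ≤ m ∧ p m - p s ∉ box (2 * r + R)) →
      (s < s' ∧ s' ≤ m ∧ p s' - p s ∈ box (2 * r + R + R) ∧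
      ∀ i, s' ≤ i → i ≤ m → p i - p s ∉ box (2 * r + R)) := by
    intro s
    by_cases h : s ≤ m ∧ p m - p s ∉ box (2 * r + R)
    · obtain ⟨s', hs'⟩ := next hstep s h.1 h.2
      exact ⟨s', fun _ => hs'⟩
    · exact ⟨0, fun h' => absurd h' h⟩
  choose nx hnx using hnext
  let t : ℕ → ℕ := fun j => Nat.rec 0 (fun _ s => nx s) j
  have ht0 : t 0 = 0 := rfl
  have htS : ∀ j, t (j + 1) = nx (t j) := fun j => rfl
  have hinv : ∀ j, j ≤ n → t j ≤ m ∧ p (t j) ∈ box (j * (2 * r + 2 * R)) := by
    intro j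
    induction j with
    | zero =>
      intro _
      refine ⟨Nat.zero_le _, ?_⟩
      rw [ht0, hp0, mem_box']
      simp
    | succ j ih =>
      intro hj
      obtain ⟨h1, h2⟩ := ih (by omega)
      have h3 : p m - p (t j) ∉ box (2 * r + R) := by
        refine hfar j _ _ (by omega) ?_ h2
        have h4 : (j + 1) * (2 * r + 2 * R) ≤ n * (2 * r + 2 * R) := Nat.mul_le_mul_right _ hj
        have h5 : (j + 1) * (2 * r + 2 * R) = j * (2 * r + 2 * R) + (2 * r + 2 * R) := by ring
        omega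
      obtain ⟨h6, h7, h8, h9⟩ := hnx (t j) ⟨h1, h3⟩
      rw [htS]
      refine ⟨h7, ?_⟩
      have h10 := box_add h2 h8
      have h11 : p (t j) + (p (nx (t j)) - p (t j)) = p (nx (t j)) := by abel
      rw [h11] at h10
      exact box_mono (le_of_eq (by ring)) h10
  have hstp : ∀ j, j < n → t j < t (j + 1) ∧ t (j + 1) ≤ m ∧
      p (t (j + 1)) - p (t j) ∈ box (2 * r + R + R) ∧
      ∀ i, t (j + 1) ≤ i → i ≤ m → p i - p (t j) ∉ box (2 * r + R) := by
    intro j hj
    obtain ⟨h1, h2⟩ := hinv j hj.le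
    have h3 : p m - p (t j) ∉ box (2 * r + R) := by
      refine hfar j _ _ hj.le ?_ h2
      have h4 : (j + 1) * (2 * r + 2 * R) ≤ n * (2 * r + 2 * R) := Nat.mul_le_mul_right _ hj
      have h5 : (j + 1) * (2 * r + 2 * R) = j * (2 * r + 2 * R) + (2 * r + 2 * R) := by ring
      omega
    rw [htS]
    exact hnx (t j) ⟨h1, h3⟩
  have hmono : ∀ j j', j ≤ j' → j' ≤ n → t j ≤ t j' := by
    intro j j' h
    induction j', h using Nat.le_induction with
    | base => intro _; exact le_rfl
    | succ j' _ ih =>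
      intro h2
      exact (ih (by omega)).trans (hstp j' (by omega)).1.le
  -- the chain
  refine ⟨fun i : Fin n => p (t (i + 1)) - p (t i), ?_, ?_⟩
  · rw [Fintype.mem_piFinset]
    intro i
    obtain ⟨h1, h2, h3, h4⟩ := hstp i i.2
    unfold ann
    rw [Finset.mem_sdiff]
    refine ⟨box_mono (by omega) h3, h4 _ le_rfl h2⟩
  · have hpt : ∀ j : Fin (n + 1), pt (fun i : Fin n => p (t (i + 1)) - p (t i)) j = p (t j) := by
      intro j
      unfold pt
      rw [Fin.sum_univ_eq_sum_range (fun i : ℕ => if i < (j : ℕ) then p (t (i + 1)) - p (t i) else 0) n]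
      rw [← Finset.sum_filter]
      have h1 : (Finset.range n).filter (fun i => i < (j : ℕ)) = Finset.range (j : ℕ) := by
        ext i
        simp only [Finset.mem_filter, Finset.mem_range]
        have := j.2
        omega
      rw [h1, Finset.sum_range_sub (fun i => p (t i)), ht0, hp0, sub_zero]
    have hsep : ∀ i j : Fin (n + 1), i < j → p (t j) - p (t i) ∉ box (2 * r + R) := by
      intro i j hij
      have h1 : (i : ℕ) < n := by
        have := j.2
        have h2 : (i : ℕ) < (j : ℕ) := hij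
        omega
      have h2 : ((i : ℕ) + 1) ≤ (j : ℕ) := hij
      have h3 : (j : ℕ) ≤ n := by
        have := j.2
        omega
      exact (hstp i h1).2.2.2 _ (hmono _ _ h2 h3) (hinv j h3).1
    refine ⟨?_, ?_⟩
    · intro i j hij
      rw [hpt, hpt]
      rcases lt_or_gt_of_ne hij with h | h
      · intro h'
        refine hsep i j h ?_
        have h2 := box_neg h'
        rwa [neg_sub] at h2
      · exact hsep j i h
    · intro j
      rw [hpt]
      have hj : (j : ℕ) ≤ n := by
        have := j.2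
        omega
      obtain ⟨h1, h2⟩ := hinv j hj
      refine conn_of (m := m) ?_ (fun i hi => ⟨(hp i hi).2.1, (hp i hi).2.2.1, (hp i hi).2.2.2⟩)
        (m - t j) (t j) (by omega)
      rw [mem_bx']
      refine hfar j r _ hj ?_ h2
      have h4 : (j : ℕ) * (2 * r + 2 * R) ≤ n * (2 * r + 2 * R) := Nat.mul_le_mul_right _ hj
      omega

end Pool.Agent.H65.RFC
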