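import Pool.Agent.H98.RFC.Targets

/-!
Row SUB of the board rfc_modules: the energy is submodular.
-/

set_option autoImplicit false

noncomputable section

namespace Pool.Agent.H65.RFC

open Pool.Agent.H98.RFC

theorem sg_field (A A' : Set Site) (x : Site) :
    sg (A ∩ A') x + sg (A ∪ A') x = sg A x + sg A' x := by
  classical
  unfold sg
  by_cases h1 : x ∈ A <;> by_cases h2 : x ∈ A' <;> simp [h1, h2]

theorem sg_pair (A A' : Set Site) (a b : Site) :
    sg A a * sg A b + sg A' a * sg A' b ≤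
      sg (A ∩ A') a * sg (A ∩ A') b + sg (A ∪ A') a * sg (A ∪ A') b := by
  classical
  unfold sg
  by_cases h1 : a ∈ A <;> by_cases h2 : a ∈ A' <;> by_cases h3 : b ∈ A <;>
    by_cases h4 : b ∈ A' <;> norm_num [h1, h2, h3, h4]

theorem pf_SUB : T_SUB := by
  intro R J hJ h Λ A A'
  unfold en
  have h1 : ∑ x ∈ Λ, h x * sg (A ∩ A') x + ∑ x ∈ Λ, h x * sg (A ∪ A') x =
      ∑ x ∈ Λ, h x * sg A x + ∑ x ∈ Λ, h x * sg A' x := by
    rw [← Finset.sum_add_distrib, ← Finset.sum_add_distrib]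
    refine Finset.sum_congr rfl fun x _ => ?_
    rw [← mul_add, ← mul_add, sg_field]
  have h2 : ∑ p ∈ prs R Λ, J (p.1 - p.2) * sg A p.1 * sg A p.2 +
      ∑ p ∈ prs R Λ, J (p.1 - p.2) * sg A' p.1 * sg A' p.2 ≤
      ∑ p ∈ prs R Λ, J (p.1 - p.2) * sg (A ∩ A') p.1 * sg (A ∩ A') p.2 +
      ∑ p ∈ prs R Λ, J (p.1 - p.2) * sg (A ∪ A') p.1 * sg (A ∪ A') p.2 := by
    rw [← Finset.sum_add_distrib, ← Finset.sum_add_distrib]
    refine Finset.sum_le_sum fun p _ => ?_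
    have h3 := mul_le_mul_of_nonneg_left (sg_pair A A' p.1 p.2) (hJ.nonneg (p.1 - p.2))
    calc J (p.1 - p.2) * sg A p.1 * sg A p.2 + J (p.1 - p.2) * sg A' p.1 * sg A' p.2
        = J (p.1 - p.2) * (sg A p.1 * sg A p.2 + sg A' p.1 * sg A' p.2) := by ring
      _ ≤ J (p.1 - p.2) * (sg (A ∩ A') p.1 * sg (A ∩ A') p.2 +
          sg (A ∪ A') p.1 * sg (A ∪ A') p.2) := h3
      _ = _ := by ring
  linarith

end Pool.Agent.H65.RFC
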