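import Pool.Agent.H98.RFC.Targets

/-!
Row UNQ of the board rfc_modules: almost surely the ground state is unique.
-/

set_option autoImplicit false

noncomputable section

open MeasureTheory ProbabilityTheory

namespace Pool.Agent.H65.RFC

open Pool.Agent.H98.RFC

instance gam_prob : IsProbabilityMeasure gam := by
  unfold gam
  infer_instance

theorem lin_null (c : Site → ℝ) (Λ : Finset Site) (x0 : Site) (hx0 : x0 ∈ Λ) (hc : c x0 ≠ 0)
    (k : ℝ) : ∀ᵐ η ∂gam, ∑ x ∈ Λ, c x * η x ≠ k := by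
  have hind : iIndepFun (fun (x : Site) (η : Site → ℝ) => c x * η x) gam :=
    iIndepFun_infinitePi (X := fun x t => c x * t) (fun x => by fun_prop)
  have hm : ∀ x : Site, Measurable (fun η : Site → ℝ => c x * η x) := fun x => by fun_prop
  have h1 := hind.indepFun_finsetSum_of_notMem hm (s := Λ.erase x0) (i := x0) (by simp)
  have hmY : Measurable (∑ x ∈ Λ.erase x0, fun η : Site → ℝ => c x * η x) := by
    have h : (∑ x ∈ Λ.erase x0, fun η : Site → ℝ => c x * η x) =
        fun η : Site → ℝ => ∑ x ∈ Λ.erase x0, c x * η x := by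
      funext η
      simp
    rw [h]
    exact Finset.measurable_sum (Λ.erase x0) fun x _ => hm x
  have h2 := (indepFun_iff_map_prod_eq_prod_map_map hmY.aemeasurable (hm x0).aemeasurable).1 h1
  have hS : MeasurableSet {p : ℝ × ℝ | p.1 + p.2 = k} :=
    measurableSet_eq_fun (by fun_prop) measurable_const
  have h3 : gam.map (fun η => ((∑ x ∈ Λ.erase x0, fun η : Site → ℝ => c x * η x) η,
      c x0 * η x0)) {p : ℝ × ℝ | p.1 + p.2 = k} = 0 := by
    rw [h2, Measure.measure_prod_null hS]
    refine Filter.Eventually.of_forall fun y => ?_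
    show (gam.map fun η : Site → ℝ => c x0 * η x0) (Prod.mk y ⁻¹' {p : ℝ × ℝ | p.1 + p.2 = k}) = 0
    rw [Measure.map_apply (hm x0) (measurable_prodMk_left hS)]
    have h4 : (fun η : Site → ℝ => c x0 * η x0) ⁻¹' (Prod.mk y ⁻¹' {p : ℝ × ℝ | p.1 + p.2 = k}) =
        (fun η : Site → ℝ => η x0) ⁻¹' {(k - y) / c x0} := by
      ext η
      simp only [Set.mem_preimage, Set.mem_ofPred_eq, Set.mem_singleton_iff]
      rw [eq_div_iff hc]
      constructor
      · intro h
        linarith
      · intro h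
        linarith
    rw [h4, ← Measure.map_apply (by fun_prop) (measurableSet_singleton _)]
    have h5 : gam.map (fun η : Site → ℝ => η x0) = gaussianReal 0 1 :=
      Measure.infinitePi_map_eval _ x0
    rw [h5]
    have := nullSingletonClass_gaussianReal (μ := 0) (v := 1) one_ne_zero
    exact measure_singleton _
  rw [Measure.map_apply (hmY.prodMk (hm x0)) hS] at h3
  rw [ae_iff]
  refine measure_mono_null ?_ h3
  intro η hη
  simp only [Set.mem_ofPred_eq, ne_eq, not_not] at hη
  simp only [Set.mem_preimage, Set.mem_ofPred_eq, Finset.sum_apply]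
  rw [← hη, ← Finset.sum_erase_add _ _ hx0]

theorem pf_UNQ : T_UNQ := by
  classical
  intro R J ε hε Λ B hB
  -- the energy
  have hen : ∀ (η : Site → ℝ) (A : Set Site), en R J (fun x => ε * η x) Λ A =
      -(1 / 2) * ∑ p ∈ prs R Λ, J (p.1 - p.2) * sg A p.1 * sg A p.2 -
        ∑ x ∈ Λ, (ε * sg A x) * η x := by
    intro η A
    unfold en
    congr 1
    refine Finset.sum_congr rfl fun x _ => ?_
    ring
  have key : ∀ᵐ η ∂gam, ∀ S ∈ Λ.powerset, ∀ S' ∈ Λ.powerset, S ≠ S' →
      en R J (fun x => ε * η x) Λ (↑S ∪ B) ≠ en R J (fun x => ε * η x) Λ (↑S' ∪ B) := by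
    refine (ae_ball_iff (S := (↑Λ.powerset : Set (Finset Site)))
      (Finset.countable_toSet _)).2 ?_
    intro S hS
    refine (ae_ball_iff (S := (↑Λ.powerset : Set (Finset Site)))
      (Finset.countable_toSet _)).2 ?_
    intro S' hS'
    rw [Finset.mem_coe] at hS hS'
    by_cases hSS : S = S'
    · exact Filter.Eventually.of_forall fun η h => absurd hSS h
    -- a site in the symmetric difference
    obtain ⟨x0, hx0⟩ : ∃ x0, ¬ (x0 ∈ S ↔ x0 ∈ S') := by
      by_contra hcon
      push Not at hcon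
      exact hSS (Finset.ext hcon)
    have hS1 : S ⊆ Λ := Finset.mem_powerset.1 hS
    have hS2 : S' ⊆ Λ := Finset.mem_powerset.1 hS'
    have hx0L : x0 ∈ Λ := by
      by_cases h : x0 ∈ S
      · exact hS1 h
      · by_cases h' : x0 ∈ S'
        · exact hS2 h'
        · exact absurd (iff_of_false h h') hx0
    have hx0B : x0 ∉ B := fun h => Set.disjoint_left.1 hB h hx0L
    have hc : ε * sg (↑S ∪ B) x0 - ε * sg (↑S' ∪ B) x0 ≠ 0 := by
      rw [← mul_sub]
      refine mul_ne_zero hε ?_
      unfold sg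
      by_cases h : x0 ∈ S
      · have h' : x0 ∉ S' := fun h' => hx0 (iff_of_true h h')
        simp [h, h', hx0B]
      · have h' : x0 ∈ S' := by
          by_contra h'
          exact hx0 (iff_of_false h h')
        simp only [Set.mem_union, Finset.mem_coe, h, h', hx0B, or_false, if_true, if_false]
        norm_num
    refine (lin_null (fun x => ε * sg (↑S ∪ B) x - ε * sg (↑S' ∪ B) x) Λ x0 hx0L hc
      (-(1 / 2) * ∑ p ∈ prs R Λ, J (p.1 - p.2) * sg (↑S ∪ B) p.1 * sg (↑S ∪ B) p.2 -
        -(1 / 2) * ∑ p ∈ prs R Λ, J (p.1 - p.2) * sg (↑S' ∪ B) p.1 * sg (↑S' ∪ B) p.2)).mono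
      fun η hη _ h => hη ?_
    rw [hen, hen] at h
    have h1 : ∑ x ∈ Λ, (ε * sg (↑S ∪ B) x - ε * sg (↑S' ∪ B) x) * η x =
        ∑ x ∈ Λ, (ε * sg (↑S ∪ B) x) * η x - ∑ x ∈ Λ, (ε * sg (↑S' ∪ B) x) * η x := by
      rw [← Finset.sum_sub_distrib]
      refine Finset.sum_congr rfl fun x _ => ?_
      ring
    rw [h1]
    linarith
  refine key.mono fun η hη => ?_
  rw [Finset.card_eq_one]
  obtain ⟨S, hS, hmin⟩ := Finset.exists_min_image Λ.powerset
    (fun S : Finset Site => en R J (fun x => ε * η x) Λ (↑S ∪ B)) ⟨∅, by simp⟩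
  refine ⟨S, ?_⟩
  ext S'
  unfold gs
  simp only [Finset.mem_filter, Finset.mem_singleton]
  constructor
  · rintro ⟨h1, h2⟩
    by_contra hne
    exact hη S' h1 S hS hne (le_antisymm (h2 S hS) (hmin S' h1))
  · rintro rfl
    exact ⟨hS, hmin⟩

end Pool.Agent.H65.RFC
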